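import Pool.Agent.H36.Cis

open Pool.Agent.H38.NP Pool.Agent.H36.Cis

theorem Pool.Agent.Results.MP_38a5c8_lc.Hard.result :
    CoNPHard (lang fun p : ℕ × List (ℕ × ℕ) => EdgeStrong (graphOf p.1 p.2)) :=
  (hard (fun _ G => EdgeStrong G) (fun _ _ _ h => h.edgeStrong) fun _ _ h =>
    h.triangle).coNPHard fun _ _ => Iff.rfl
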